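import Pool.Agent.helper56.P2B.SpecP
import Pool.Agent.helper1.P2.FRS

/-! # Project p2b:, row CVA (helper89): the limit domain and compact sets -/

set_option autoImplicit false

open Complex Metric Set Filter Topology MeasureTheory
open Pool.Agent.helper98.ILF
open WP (it)
open HY (UD T S hd UN RM)
open PM
open PL (TP LO PZ GJ INR PG DK ht tr DI CY SUBH hG hq BJ)
open P2 (SS FLS FL CLS FR TL)

noncomputable section

namespace P2B

theorem CVA (hTDF : TDF_stmt) (hTPM : TPM_stmt) : CVA_stmt := by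
  intro V Ω φ χ hC
  have hRM : RM (χ '' UD) 0 χ := ⟨hC.dif, hC.inj, rfl, hC.val⟩
  obtain ⟨hDD, hcr⟩ := hTPM _ _ _ hRM
  have h0 : (0 : ℂ) ∈ UD := mem_ball_self one_pos
  have hcr0 : cr (χ '' UD) 0 = 1 := by
    have h := (hcr 0 h0).1
    rw [hC.val, hC.one] at h
    rw [h]
    simp
  have hOpen : IsOpen (χ '' UD) := (hTDF _ hDD).1
  refine ⟨hRM, hDD, hcr0, hOpen, ⟨0, h0, hC.val⟩, ?_, ?_⟩
  · intro l
    obtain ⟨hDDl, hcrl⟩ := hTPM _ _ _ (hC.rm l)
    have him : φ l '' UD = Ω l := (hC.rm l).img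
    have hv : φ l 0 = 0 := (hC.rm l).val
    refine ⟨hDDl, ?_, ?_⟩
    · rw [← him]
      exact ⟨0, h0, hv⟩
    · have h := (hcrl 0 h0).1
      rw [hv, hC.nor l] at h
      rw [h]
      simp
  · intro K hK hKc
    refine hKc.induction_on (p := fun K' => ∀ᶠ l in (V : Filter ℕ), K' ⊆ Ω l) ?_ ?_ ?_ ?_
    · exact Eventually.of_forall fun l => empty_subset _
    · intro s t hst ht
      filter_upwards [ht] with l hl using hst.trans hl
    · intro s t hs' ht
      filter_upwards [hs', ht] with l h1 h2 using union_subset h1 h2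
    · intro ζ₀ hζ₀
      obtain ⟨u₀, hu₀, rfl⟩ := hK hζ₀
      obtain ⟨δ', hδ', hev⟩ := P2.FRS_loc (V : Filter ℕ) φ χ (fun l => (hC.rm l).dif) (fun l => (hC.rm l).inj)
        hC.dif hC.inj hC.cv u₀ hu₀ 1 one_pos
      refine ⟨ball (χ u₀) δ', mem_nhdsWithin_of_mem_nhds (ball_mem_nhds _ hδ'), ?_⟩
      filter_upwards [hev] with l hl ζ hζ
      obtain ⟨u, hu, v, hv, h1, h2, h3⟩ := hl ζ hζ
      rw [← (hC.rm l).img]
      exact ⟨u, hu, h1⟩

end P2B
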